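import Mathlib

/-! Sums over the 4-subsets of a finite set of a function of the size of the intersection with a
fixed set. -/

set_option autoImplicit false
open Finset

namespace Pool.Agent.R81.EV

theorem card_inter {m : ℕ} (B : Finset (Fin m)) (r j : ℕ) (hj : j ≤ r) :
    (((powersetCard r (univ : Finset (Fin m))).filter fun J => (J ∩ B).card = j).card)
      = B.card.choose j * (m - B.card).choose (r - j) := by
  have hBc : (Bᶜ : Finset (Fin m)).card = m - B.card := by rw [card_compl, Fintype.card_fin]
  rw [← hBc, ← card_powersetCard j B, ← card_powersetCard (r - j) Bᶜ, ← card_product]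
  refine card_nbij' (fun J => (J ∩ B, J ∩ Bᶜ)) (fun p => p.1 ∪ p.2) ?_ ?_ ?_ ?_
  · intro J hJ
    simp only [coe_filter, mem_powersetCard, subset_univ, true_and, Set.mem_setOf_eq] at hJ
    simp only [coe_product, Set.mem_prod, mem_coe, mem_powersetCard, inter_subset_right, true_and]
    refine ⟨hJ.2, ?_⟩
    have h := card_inter_add_card_sdiff J B
    have h2 : J \ B = J ∩ Bᶜ := by rw [sdiff_eq_inter_compl]
    rw [h2] at h
    omega
  · intro p hp
    simp only [coe_product, Set.mem_prod, mem_coe, mem_powersetCard] at hp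
    obtain ⟨⟨h1, h2⟩, h3, h4⟩ := hp
    have hd : Disjoint p.1 p.2 := by
      refine disjoint_left.mpr fun x hx hx2 => ?_
      have := h3 hx2
      rw [mem_compl] at this
      exact this (h1 hx)
    simp only [coe_filter, mem_powersetCard, subset_univ, true_and, Set.mem_setOf_eq]
    refine ⟨by rw [card_union_of_disjoint hd, h2, h4]; omega, ?_⟩
    have : (p.1 ∪ p.2) ∩ B = p.1 := by
      ext x
      simp only [mem_inter, mem_union]
      constructor
      · rintro ⟨h | h, hB⟩
        · exact h
        · have := h3 h
          rw [mem_compl] at this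
          exact absurd hB this
      · intro h
        exact ⟨Or.inl h, h1 h⟩
    rw [this, h2]
  · intro J _
    ext x
    simp only [mem_union, mem_inter, mem_compl]
    tauto
  · intro p hp
    simp only [coe_product, Set.mem_prod, mem_coe, mem_powersetCard] at hp
    obtain ⟨⟨h1, h2⟩, h3, h4⟩ := hp
    refine Prod.ext ?_ ?_
    · ext x
      simp only [mem_inter, mem_union]
      constructor
      · rintro ⟨h | h, hB⟩
        · exact h
        · have := h3 h
          rw [mem_compl] at this
          exact absurd hB this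
      · intro h
        exact ⟨Or.inl h, h1 h⟩
    · ext x
      simp only [mem_inter, mem_union, mem_compl]
      constructor
      · rintro ⟨h | h, hB⟩
        · exact absurd (h1 h) hB
        · exact h
      · intro h
        have := h3 h
        rw [mem_compl] at this
        exact ⟨Or.inr h, this⟩

theorem sum_inter {m : ℕ} (B : Finset (Fin m)) (r : ℕ) (v : ℕ → ℤ) :
    ∑ J ∈ powersetCard r (univ : Finset (Fin m)), v (J ∩ B).card
      = ∑ j ∈ range (r + 1), ((B.card.choose j * (m - B.card).choose (r - j) : ℕ) : ℤ) * v j := by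
  rw [← sum_fiberwise_of_maps_to (s := powersetCard r (univ : Finset (Fin m))) (t := range (r + 1))
    (g := fun J => (J ∩ B).card)]
  · refine sum_congr rfl fun j hj => ?_
    rw [mem_range] at hj
    rw [← card_inter B r j (by omega)]
    rw [sum_congr rfl (g := fun _ => v j)]
    · rw [sum_const, nsmul_eq_mul]
    · intro J hJ
      rw [mem_filter] at hJ
      rw [hJ.2]
  · intro J hJ
    rw [mem_powersetCard] at hJ
    rw [mem_range]
    have := card_le_card (inter_subset_left : J ∩ B ⊆ J)
    omega

theorem hB_of {m : ℕ} {v : ℕ → ℤ} {a0 b0 : ℤ}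
    (h : ∀ d : ℕ, 1 ≤ d → d ≤ m →
      a0 - b0 * (d : ℤ) ≤ (((m - d).choose 4 : ℕ) : ℤ) * v 0 + ((d * (m - d).choose 3 : ℕ) : ℤ) * v 1
        + ((d.choose 2 * (m - d).choose 2 : ℕ) : ℤ) * v 2 + ((d.choose 3 * (m - d) : ℕ) : ℤ) * v 3
        + ((d.choose 4 : ℕ) : ℤ) * v 4)
    (B : Finset (Fin m)) (hB : B.Nonempty) :
    a0 - b0 * (B.card : ℤ) ≤ ∑ J ∈ powersetCard 4 (univ : Finset (Fin m)), v (J ∩ B).card := by
  rw [sum_inter B 4 v]
  have hc : B.card ≤ m := by
    have := card_le_univ B
    rwa [Fintype.card_fin] at this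
  have h2 := h B.card hB.card_pos hc
  simp only [sum_range_succ, sum_range_zero, Nat.choose_zero_right, Nat.choose_one_right, one_mul, mul_one,
    Nat.sub_zero, Nat.sub_self, zero_add, Nat.reduceSub]
  exact h2

end Pool.Agent.R81.EV
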